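import Pool.Agent.H16.FT.Key
import Pool.Agent.H64.FT.Defs

/-!
# The fixed part of the second cohomology of a product of two curves, with constant parts
-/

set_option autoImplicit false

open Matrix

namespace Pool.Agent.H16.FT

open Pool.Agent.H64.CC Pool.Agent.H64.FT

variable {K : Type} [Field K] [CharZero K] {W : Weil K}

/-- the class `cl f` on `A × S` of a map `f` from `H(A)` to `H(S)`, by Poincaré duality on `A`: the
classes of correspondences are the classes of cycles -/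
structure Graph (D : Duality W) {m : ℕ} (A S : W.Var m) where
  cl : W.Hom A S → W.H (W.prod A S)
  lin : IsLinearMap K cl
  inj : ∀ f, cl f = 0 → f = 0
  surj : ∀ (k : ℕ) (y : W.H (W.prod A S)), W.InH (W.prod A S) k y →
    ∃ f : W.Hom A S, (∀ b a, f b a ≠ 0 → W.deg S b + 2 * W.dim A = k + W.deg A a) ∧ cl f = y
  alg : ∀ (r : ℤ), ∀ f ∈ W.cyc A S r, cl f ∈ W.alg (W.prod A S) (r + W.dim A)
  ext_cl : ∀ (a : W.Hom A A) (b : W.Hom S S) (f : W.Hom A S), W.HasDeg 0 a → W.HasDeg 0 b →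
    W.ap (W.ext a b) (cl f) = cl (W.comp (W.comp b f) (D.t A a))

/-- The constant part of `H¹(S₁)` and of `H¹(S₂)`: `e₁` and `e₂` are the projectors onto the classes
which are fixed by `π`. They are algebraic: they correspond to the constant part of the Jacobian
variety, its trace over `F n` -/
structure CurvePair.Const {m : ℕ} {S₁ S₂ : W.Var m} (P : CurvePair W S₁ S₂) where
  e₁ : W.Hom S₁ S₁
  e₂ : W.Hom S₂ S₂
  mem₁ : e₁ ∈ W.cyc S₁ S₁ 0
  mem₂ : e₂ ∈ W.cyc S₂ S₂ 0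
  one₁ : W.comp e₁ (W.pj S₁ 1) = e₁
  one₂ : W.comp e₂ (W.pj S₂ 1) = e₂
  comm₁ : ∀ g, W.comp (P.ρ₁ g) e₁ = W.comp e₁ (P.ρ₁ g)
  idem₁ : W.comp e₁ e₁ = e₁
  fixed₁ : ∀ g ∈ P.π, W.comp (P.ρ₁ g) e₁ = e₁
  fix₂ : ∀ v, W.InH S₂ 1 v → (∀ g ∈ P.π, W.ap (P.ρ₂ g) v = v) → W.ap e₂ v = v

/-- `H¹(S₁)` degenerates up to the constant part: it is generated, as a representation of `π`, by
the constant part and by the images of the monodromy operators at the places of bad reduction. This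
is so if `S₁` is any elliptic curve, if `S₁` has a place of totally degenerate reduction, or if `S₁`
is the generic fibre of a Lefschetz pencil on any surface -/
def CurvePair.Const.Degenerates {m : ℕ} {S₁ S₂ : W.Var m} {P : CurvePair W S₁ S₂}
    (E : P.Const) : Prop :=
  ∀ U : Submodule K (W.H S₁), (∀ g ∈ P.π, ∀ v ∈ U, W.ap (P.ρ₁ g) v ∈ U) →
    (∀ c, ∀ v, W.InH S₁ 1 v → W.ap (P.ρ₁ (P.τ c)) v - v ∈ U) →
    (∀ v, W.ap E.e₁ v ∈ U) → ∀ v, W.InH S₁ 1 v → v ∈ U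

/-- A map `f` which commutes with `π` and kills the constant part commutes on `H¹` with a subgroup
of finite index. -/
theorem finite_index_const {m : ℕ} {S₁ S₂ : W.Var m} {P : CurvePair W S₁ S₂} (E : P.Const)
    (hP : E.Degenerates) {f : W.Hom S₁ S₂} (hdeg : W.HasDeg 0 f)
    (hf : ∀ p ∈ P.π, P.ρ₂ p * f = f * P.ρ₁ p) (hfe : f * E.e₁ = 0) :
    ∀ g, (∀ c, g ∈ P.π ⊔ P.Dec c) → ∀ v, W.InH S₁ 1 v →
      (P.ρ₂ g * f * P.ρ₁ g⁻¹) *ᵥ v = f *ᵥ v := by
  have hπ : ∀ p ∈ P.π, P.ρ₂ p * f * P.ρ₁ p⁻¹ = f := fun p hp => by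
    rw [hf p hp, Matrix.mul_assoc, ← map_mul, mul_inv_cancel, map_one, Matrix.mul_one]
  intro g hg
  obtain ⟨h, hh⟩ : ∃ h : W.Hom S₁ S₂, h = P.ρ₂ g * f * P.ρ₁ g⁻¹ - f := ⟨_, rfl⟩
  have hheq : ∀ p ∈ P.π, P.ρ₂ p * h = h * P.ρ₁ p := fun p hp => by
    rw [hh, Matrix.mul_sub, Matrix.sub_mul, conj_equiv P hf g p hp, hf p hp]
  have hconst : h * E.e₁ = 0 := by
    have e1 := E.comm₁ g⁻¹
    simp only [Weil.comp] at e1
    rw [hh, Matrix.sub_mul, hfe, sub_zero, Matrix.mul_assoc, e1, ← Matrix.mul_assoc,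
      Matrix.mul_assoc (P.ρ₂ g) f E.e₁, hfe, Matrix.mul_zero, Matrix.zero_mul]
  have hkill : ∀ c v, W.InH S₁ 1 v → h *ᵥ (P.ρ₁ (P.τ c) *ᵥ v - v) = 0 := by
    intro c v hv
    have hN : P.π.Normal := ⟨P.normal⟩
    obtain ⟨p, hp, σ, hσ, rfl⟩ : ∃ p ∈ P.π, ∃ σ ∈ P.Dec c, p * σ = g := by
      have := hg c
      rw [Subgroup.mem_sup_of_normal_left] at this
      exact this
    obtain ⟨q, hq⟩ : ∃ q, q = σ⁻¹ * p * σ := ⟨_, rfl⟩
    have hqπ : q ∈ P.π := by
      rw [hq]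
      have := P.normal p hp σ⁻¹
      rwa [inv_inv] at this
    have hgq : p * σ = σ * q := by
      rw [hq]
      group
    have e0 : P.ρ₂ (p * σ) * f * P.ρ₁ (p * σ)⁻¹ = P.ρ₂ σ * f * P.ρ₁ σ⁻¹ := by
      rw [hgq, _root_.mul_inv_rev, map_mul, map_mul]
      have e1 : P.ρ₂ σ * P.ρ₂ q * f * (P.ρ₁ q⁻¹ * P.ρ₁ σ⁻¹) =
          P.ρ₂ σ * (P.ρ₂ q * f * P.ρ₁ q⁻¹) * P.ρ₁ σ⁻¹ := by
        simp only [Matrix.mul_assoc]
      rw [e1, hπ q hqπ]
    rw [hh, e0, Matrix.sub_mulVec, sub_eq_zero, ← Matrix.mulVec_mulVec, ← Matrix.mulVec_mulVec]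
    have hσ' : σ⁻¹ ∈ P.Dec c := (P.Dec c).inv_mem hσ
    have e2 := P.dec₁ c σ⁻¹ hσ' v hv
    simp only [Weil.ap] at e2
    rw [e2]
    have e3 : f *ᵥ (P.ρ₁ (P.τ c) *ᵥ v - v) = P.ρ₂ (P.τ c) *ᵥ (f *ᵥ v) - f *ᵥ v := by
      rw [Matrix.mulVec_sub, Matrix.mulVec_mulVec, Matrix.mulVec_mulVec, hf _ (P.τ_mem c)]
    rw [e3]
    have e4 := P.dec₂ c σ hσ (f *ᵥ v) (inH_mulVec hdeg hv)
    simp only [Weil.ap] at e4
    exact e4
  intro v hv
  have := hP (LinearMap.ker (Matrix.mulVecLin h)) (fun p hp w hw => by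
      rw [LinearMap.mem_ker, Matrix.mulVecLin_apply] at hw ⊢
      simp only [Weil.ap]
      rw [Matrix.mulVec_mulVec, ← hheq p hp, ← Matrix.mulVec_mulVec, hw, Matrix.mulVec_zero])
    (fun c w hw => by
      rw [LinearMap.mem_ker, Matrix.mulVecLin_apply]
      exact hkill c w hw)
    (fun w => by
      rw [LinearMap.mem_ker, Matrix.mulVecLin_apply]
      simp only [Weil.ap]
      rw [Matrix.mulVec_mulVec, hconst, Matrix.zero_mulVec]) v hv
  rw [LinearMap.mem_ker, Matrix.mulVecLin_apply, hh, Matrix.sub_mulVec, sub_eq_zero] at this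
  exact this

/-- a map of degree `0` which commutes with `π` and kills the constant part is a combination of
correspondences -/
theorem equivariant_const {m : ℕ} {S₁ S₂ : W.Var m} {P : CurvePair W S₁ S₂} (E : P.Const)
    (hP : E.Degenerates) {f : W.Hom S₁ S₂} (hdeg : W.HasDeg 0 f)
    (hf : ∀ p ∈ P.π, P.ρ₂ p * f = f * P.ρ₁ p) (hfe : f * E.e₁ = 0) :
    f ∈ Submodule.span K (W.cyc S₁ S₂ 0 : Set (W.Hom S₁ S₂)) := by
  have hfin : (⨅ c, (P.π ⊔ P.Dec c)).FiniteIndex := by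
    have := P.dec_index
    exact Subgroup.finiteIndex_iInf this
  refine P.tate _ hfin f hdeg fun g hg => ?_
  rw [Subgroup.mem_iInf] at hg
  have h1 := finite_index_const E hP hdeg hf hfe g hg
  have h2 : P.ρ₂ g * f * P.ρ₁ g⁻¹ = f := by
    refine ext_inH fun i v hv => ?_
    by_cases hi : i = 1
    · rw [hi] at hv
      exact h1 v hv
    · obtain ⟨c, hc1, hc2⟩ := P.scalar g i hi
      simp only [Weil.comp] at hc1 hc2
      have hv' : P.ρ₁ g *ᵥ v = c • v := by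
        have e : P.ρ₁ g *ᵥ v = (P.ρ₁ g * W.pj S₁ i) *ᵥ v := by
          rw [← Matrix.mulVec_mulVec, pj_of_inH hv]
        rw [e, hc1, Matrix.smul_mulVec, pj_of_inH hv]
      have hfv : P.ρ₂ g *ᵥ (f *ᵥ v) = c • (f *ᵥ v) := by
        have e : P.ρ₂ g *ᵥ (f *ᵥ v) = (P.ρ₂ g * W.pj S₂ i) *ᵥ (f *ᵥ v) := by
          rw [← Matrix.mulVec_mulVec, pj_of_inH (inH_mulVec hdeg hv)]
        rw [e, hc2, Matrix.smul_mulVec, pj_of_inH (inH_mulVec hdeg hv)]
      have hinv : P.ρ₁ g⁻¹ *ᵥ (P.ρ₁ g *ᵥ v) = v := by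
        rw [Matrix.mulVec_mulVec, ← map_mul, inv_mul_cancel, map_one, Matrix.one_mulVec]
      rw [hv', Matrix.mulVec_smul] at hinv
      by_cases hc : c = 0
      · rw [hc, zero_smul] at hinv
        rw [← hinv, Matrix.mulVec_zero, Matrix.mulVec_zero]
      · have e5 : P.ρ₁ g⁻¹ *ᵥ v = c⁻¹ • v := by
          rw [← hinv, smul_smul, inv_mul_cancel₀ hc, one_smul, hinv]
        rw [← Matrix.mulVec_mulVec, e5, Matrix.mulVec_smul, ← Matrix.mulVec_mulVec, hfv,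
          smul_smul, inv_mul_cancel₀ hc, one_smul]
  change P.ρ₂ g * f = f * P.ρ₁ g
  calc P.ρ₂ g * f = P.ρ₂ g * f * (P.ρ₁ g⁻¹ * P.ρ₁ g) := by
        rw [← map_mul, inv_mul_cancel, map_one, Matrix.mul_one]
    _ = P.ρ₂ g * f * P.ρ₁ g⁻¹ * P.ρ₁ g := by rw [Matrix.mul_assoc _ (P.ρ₁ g⁻¹) (P.ρ₁ g)]
    _ = f * P.ρ₁ g := by rw [h2]

/-- **A map of degree `0` which commutes with the geometric monodromy group is a combination of
correspondences modulo the constant part.** -/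
theorem equivariant_mod {m : ℕ} {S₁ S₂ : W.Var m} {P : CurvePair W S₁ S₂} (E : P.Const)
    (hP : E.Degenerates) (hW : W.Calculus) {f : W.Hom S₁ S₂} (hdeg : W.HasDeg 0 f)
    (hf : ∀ p ∈ P.π, P.ρ₂ p * f = f * P.ρ₁ p) :
    f - E.e₂ * f * E.e₁ ∈ Submodule.span K (W.cyc S₁ S₂ 0 : Set (W.Hom S₁ S₂)) := by
  have hedeg : W.HasDeg 0 E.e₁ := hW.cyc_deg S₁ S₁ 0 _ E.mem₁
  -- `f e₁ = e₂ f e₁`
  have h1 : E.e₂ * f * E.e₁ = f * E.e₁ := by
    have e1 : ∀ v, W.InH S₂ 1 ((f * E.e₁) *ᵥ v) := by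
      intro v
      have e2 := E.one₁
      simp only [Weil.comp] at e2
      rw [← e2, ← Matrix.mul_assoc, ← Matrix.mulVec_mulVec]
      have hd : W.HasDeg 0 (f * E.e₁) := by
        intro b a hba
        have : ∃ c, f b c * E.e₁ c a ≠ 0 := by
          by_contra hne
          push Not at hne
          apply hba
          rw [Matrix.mul_apply]
          exact Finset.sum_eq_zero fun c _ => hne c
        obtain ⟨c, hc⟩ := this
        have h3 := hdeg b c (fun h => hc (by rw [h, zero_mul]))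
        have h4 := hedeg c a (fun h => hc (by rw [h, mul_zero]))
        omega
      exact inH_mulVec hd (inH_pj 1 v)
    have e3 : ∀ v, E.e₂ *ᵥ ((f * E.e₁) *ᵥ v) = (f * E.e₁) *ᵥ v := by
      intro v
      refine E.fix₂ _ (e1 v) fun g hg => ?_
      have e4 := E.fixed₁ g hg
      simp only [Weil.comp] at e4
      simp only [Weil.ap]
      rw [Matrix.mulVec_mulVec, ← Matrix.mul_assoc, hf g hg, Matrix.mul_assoc, e4]
    refine ext_inH fun i v _ => ?_
    rw [Matrix.mul_assoc, ← Matrix.mulVec_mulVec]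
    exact e3 v
  have h2 : f - E.e₂ * f * E.e₁ = f - f * E.e₁ := by rw [h1]
  rw [h2]
  have hdeg' : W.HasDeg 0 (f - f * E.e₁) := by
    intro b a hba
    by_cases h3 : f b a = 0
    · have h4 : (f * E.e₁) b a ≠ 0 := by
        intro h5
        apply hba
        rw [Matrix.sub_apply, h3, h5, sub_zero]
      have : ∃ c, f b c * E.e₁ c a ≠ 0 := by
        by_contra hne
        push Not at hne
        apply h4
        rw [Matrix.mul_apply]
        exact Finset.sum_eq_zero fun c _ => hne c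
      obtain ⟨c, hc⟩ := this
      have h5 := hdeg b c (fun h => hc (by rw [h, zero_mul]))
      have h6 := hedeg c a (fun h => hc (by rw [h, mul_zero]))
      omega
    · exact hdeg b a h3
  refine equivariant_const E hP hdeg' (fun p hp => ?_) ?_
  · have e1 := E.comm₁ p
    simp only [Weil.comp] at e1
    rw [Matrix.mul_sub, Matrix.sub_mul, ← Matrix.mul_assoc, hf p hp, Matrix.mul_assoc f E.e₁, ← e1,
      ← Matrix.mul_assoc]
  · have e1 := E.idem₁
    simp only [Weil.comp] at e1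
    rw [Matrix.sub_mul, Matrix.mul_assoc, e1, sub_self]

/-- **The invariant classes in `H²(S₁ × S₂)` are combinations of divisors modulo the constant
part.** -/
theorem fixed_mod {D : Duality W} {m : ℕ} {S₁ S₂ : W.Var m} {P : CurvePair W S₁ S₂}
    (E : P.Const) (hP : E.Degenerates) (hW : W.Calculus) (G : Graph D S₁ S₂)
    (h1 : W.dim S₁ = 1) (hdual : ∀ g ∈ P.π, D.t S₁ (P.ρ₁ g) = P.ρ₁ g⁻¹)
    (hsymm : D.t S₁ E.e₁ = E.e₁) {y : W.H (W.prod S₁ S₂)} (hy : W.InH (W.prod S₁ S₂) 2 y)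
    (hfix : ∀ g ∈ P.π, W.ap (W.ext (P.ρ₁ g) (P.ρ₂ g)) y = y) :
    y - W.ap (W.ext E.e₁ E.e₂) y ∈
      Submodule.span K (W.alg (W.prod S₁ S₂) 1 : Set (W.H (W.prod S₁ S₂))) := by
  obtain ⟨f, hf0, rfl⟩ := G.surj 2 y hy
  have hdeg : W.HasDeg 0 f := by
    intro b a hba
    have := hf0 b a hba
    rw [h1] at this
    omega
  have hadd : ∀ a b, G.cl (a + b) = G.cl a + G.cl b := G.lin.map_add
  have hsmul : ∀ (q : K) a, G.cl (q • a) = q • G.cl a := G.lin.map_smul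
  have hzero : G.cl 0 = 0 := by
    have := hsmul 0 0
    rwa [zero_smul, zero_smul] at this
  have hsub : ∀ a b, G.cl (a - b) = G.cl a - G.cl b := fun a b => by
    have h1 := hadd (a - b) b
    rw [sub_add_cancel] at h1
    rw [h1, add_sub_cancel_right]
  have hf : ∀ p ∈ P.π, P.ρ₂ p * f = f * P.ρ₁ p := fun p hp => by
    have h1 := hfix p hp
    rw [G.ext_cl _ _ f (P.deg₁ p) (P.deg₂ p), hdual p hp, ← sub_eq_zero, ← hsub] at h1
    have h2 := G.inj _ h1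
    rw [sub_eq_zero] at h2
    simp only [Weil.comp] at h2
    calc P.ρ₂ p * f = P.ρ₂ p * f * (P.ρ₁ p⁻¹ * P.ρ₁ p) := by
          rw [← map_mul, inv_mul_cancel, map_one, Matrix.mul_one]
      _ = P.ρ₂ p * f * P.ρ₁ p⁻¹ * P.ρ₁ p := by rw [Matrix.mul_assoc _ (P.ρ₁ p⁻¹) (P.ρ₁ p)]
      _ = f * P.ρ₁ p := by rw [h2]
  have h3 := equivariant_mod E hP hW hdeg hf
  have h4 : ∀ x ∈ Submodule.span K (W.cyc S₁ S₂ 0 : Set (W.Hom S₁ S₂)),
      G.cl x ∈ Submodule.span K (W.alg (W.prod S₁ S₂) 1 : Set (W.H (W.prod S₁ S₂))) := by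
    intro x hx
    induction hx using Submodule.span_induction with
    | mem x hx =>
      have := G.alg 0 x hx
      rw [zero_add, h1] at this
      exact Submodule.subset_span this
    | zero =>
      rw [hzero]
      exact zero_mem _
    | add x y _ _ hx hy =>
      rw [hadd]
      exact add_mem hx hy
    | smul q x _ hx =>
      rw [hsmul]
      exact Submodule.smul_mem _ q hx
  have h5 := h4 _ h3
  rw [hsub] at h5
  have h6 : W.ap (W.ext E.e₁ E.e₂) (G.cl f) = G.cl (E.e₂ * f * E.e₁) := by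
    rw [G.ext_cl _ _ f (hW.cyc_deg S₁ S₁ 0 _ E.mem₁) (hW.cyc_deg S₂ S₂ 0 _ E.mem₂), hsymm]
    rfl
  rw [h6]
  exact h5

end Pool.Agent.H16.FT
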