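import Pool.Agent.H64.FT.Main
import Pool.Agent.H16.FT.KeyConst

/-!
# Threefolds fibred over a curve: fixed classes which are algebraic modulo a constant part
-/

set_option autoImplicit false

open Matrix

namespace Pool.Agent.H16.FT

open Pool.Agent.H64.CC Pool.Agent.H64.FT

variable {K : Type} [Field K] [CharZero K] {W : Weil K} {D : Duality W}

theorem through_left (hW : W.Calculus) {n : ℕ} {X : W.Var n} {Q : W.Var n → Prop}
    {f a : W.Hom X X} (hf : f ∈ Through W Q X) (ha : a ∈ W.cyc X X 0) :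
    a * f ∈ Through W Q X := by
  unfold Through at hf ⊢
  induction hf using Submodule.span_induction with
  | mem x hx =>
    obtain ⟨S, r, hS, h, hh, g, hg, rfl⟩ := hx
    refine Submodule.subset_span ⟨S, r, hS, h, hh, a * g, ?_, ?_⟩
    · have := hW.comp_mem S X X (-r) 0 g hg a ha
      rwa [add_zero] at this
    · exact (Matrix.mul_assoc a g h).symm
  | zero =>
    rw [mul_zero]
    exact Submodule.zero_mem _
  | add x y _ _ hx hy =>
    rw [mul_add]
    exact Submodule.add_mem _ hx hy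
  | smul q x _ hx =>
    rw [mul_smul_comm]
    exact Submodule.smul_mem _ q hx

theorem through_right (hW : W.Calculus) {n : ℕ} {X : W.Var n} {Q : W.Var n → Prop}
    {f a : W.Hom X X} (hf : f ∈ Through W Q X) (ha : a ∈ W.cyc X X 0) :
    f * a ∈ Through W Q X := by
  unfold Through at hf ⊢
  induction hf using Submodule.span_induction with
  | mem x hx =>
    obtain ⟨S, r, hS, h, hh, g, hg, rfl⟩ := hx
    refine Submodule.subset_span ⟨S, r, hS, h * a, ?_, g, hg, ?_⟩
    · have := hW.comp_mem X X S 0 r a ha h hh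
      rwa [zero_add] at this
    · exact Matrix.mul_assoc g h a
  | zero =>
    rw [zero_mul]
    exact Submodule.zero_mem _
  | add x y _ _ hx hy =>
    rw [add_mul]
    exact Submodule.add_mem _ hx hy
  | smul q x _ hx =>
    rw [smul_mul_assoc]
    exact Submodule.smul_mem _ q hx

theorem through_mono {n : ℕ} {X : W.Var n} {P Q : W.Var n → Prop} (h : ∀ S, P S → Q S) :
    Through W P X ≤ Through W Q X := by
  refine Submodule.span_mono ?_
  rintro g ⟨S, r, hS, h'⟩
  exact ⟨S, r, h S hS, h'⟩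

theorem through_cyc (hW : W.Calculus) {n : ℕ} {X : W.Var n} {P : W.Var n → Prop} :
    Through W P X ≤ W.cyc X X 0 := by
  refine Submodule.span_le.2 ?_
  rintro f ⟨S, r, _, h, hh, g, hg, rfl⟩
  have := hW.comp_mem X S X r (-r) h hh g hg
  rwa [add_neg_cancel] at this

theorem ap_span (hW : W.Calculus) {n : ℕ} {X : W.Var n} {f : W.Hom X X} (hf : f ∈ W.cyc X X 0)
    {v : W.H X} (hv : v ∈ Submodule.span K (W.alg X 1 : Set (W.H X))) :
    f *ᵥ v ∈ Submodule.span K (W.alg X 1 : Set (W.H X)) := by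
  induction hv using Submodule.span_induction with
  | mem x hx =>
    have := hW.ap_mem X X 0 1 f hf x hx
    rw [add_zero] at this
    exact Submodule.subset_span this
  | zero =>
    rw [Matrix.mulVec_zero]
    exact zero_mem _
  | add x y _ _ hx hy =>
    rw [Matrix.mulVec_add]
    exact add_mem hx hy
  | smul q x _ hx =>
    rw [Matrix.mulVec_smul]
    exact Submodule.smul_mem _ q hx

/-- **Threefolds fibred over a curve whose fixed classes are algebraic modulo the image of a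
correspondence `κ` which factors through surfaces whose models have algebraic Künneth
projectors.** -/
theorem C_of_fixed_mod (hW : W.Calculus) (hK : Known W D) {𝓕 : Fibrations W}
    (h𝓕 : 𝓕.Theory D) {n : ℕ} {X : W.Var n} {Y : W.Var (n + 1)} (f : 𝓕.Fib X Y)
    (hX : W.dim X = 3) {P : W.Var (n + 1) → Prop} (hP2 : ∀ S, P S → W.dim S ≤ 2)
    (hPC : ∀ S, P S → ∀ Z, Nonempty (𝓕.Fib Z S) → W.C Z) {κ : W.Hom Y Y}
    (hκ : κ ∈ Through W P Y) (hκmon : ∀ g ∈ 𝓕.mon f, W.comp g κ = W.comp κ g)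
    (hκt : D.t Y κ = κ)
    (hκinv : ∀ y, W.InH Y 2 y → (∀ g ∈ 𝓕.mon f, W.ap g y = y) →
      y - W.ap κ y ∈ Submodule.span K (W.alg Y 1 : Set (W.H Y))) : W.C X := by
  have hY : W.dim Y = 2 := by have := h𝓕.dim_eq f; omega
  obtain ⟨e₀, he₀, ht₀, hpj₀, hfix₀, hran₀⟩ := hK.murre Y hY
  have hκcyc : κ ∈ W.cyc Y Y 0 := through_cyc hW hκ
  have he₀cyc : e₀ ∈ W.cyc Y Y 0 := through_cyc hW he₀
  have hκK : κ ∈ Through W (fun S => W.dim S ≤ 1 ∨ P S) Y := through_mono (fun S h => Or.inr h) hκ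
  have he₀K : e₀ ∈ Through W (fun S => W.dim S ≤ 1 ∨ P S) Y :=
    through_mono (fun S h => Or.inl h) he₀
  have hspan : ∀ v ∈ Submodule.span K (W.alg Y 1 : Set (W.H Y)), e₀ *ᵥ v = v := by
    intro v hv
    induction hv using Submodule.span_induction with
    | mem x hx => exact hfix₀ x hx
    | zero => rw [Matrix.mulVec_zero]
    | add x y _ _ hx hy => rw [Matrix.mulVec_add, hx, hy]
    | smul q x _ hx => rw [Matrix.mulVec_smul, hx]
  have hmon₀ : ∀ g ∈ 𝓕.mon f, g * e₀ = e₀ * g := fun g hg =>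
    murre_comm ht₀ hpj₀ hfix₀ hran₀ (h𝓕.mon_deg f g hg) (h𝓕.mon_dual f g hg)
      (fun v hv => h𝓕.mon_alg f g hg 1 v hv)
  have hone : (1 - e₀ : W.Hom Y Y) ∈ W.cyc Y Y 0 := Submodule.sub_mem _ (hW.one_mem Y) he₀cyc
  have htadd : ∀ (a b : W.Hom Y Y), D.t Y (a + b) = D.t Y a + D.t Y b := fun a b =>
    (D.lin Y).map_add a b
  have htsub : ∀ (a b : W.Hom Y Y), D.t Y (a - b) = D.t Y a - D.t Y b := fun a b =>
    (D.lin Y).map_sub a b
  have htone : D.t Y (1 : W.Hom Y Y) = 1 := D.one Y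
  have htmul : ∀ (a b : W.Hom Y Y), D.t Y (a * b) = D.t Y b * D.t Y a := fun a b =>
    D.anti Y b a
  refine C_of_fibration hW hK h𝓕 f (Q := fun _ => False) (fun _ h => h.elim)
    (fun j h4 hj => absurd hj (by omega)) (P := fun S => W.dim S ≤ 1 ∨ P S) ?_ ?_
    (e := e₀ + (1 - e₀) * κ * (1 - e₀))
    (Submodule.add_mem _ he₀K (through_right hW (through_left hW hκK hone) hone)) ?_ ?_ ?_ ?_
  · rintro S (hS | hS)
    · exact h𝓕.models S (by omega)
    · exact h𝓕.models S (hP2 S hS)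
  · rintro S (hS | hS) Z hZ
    · obtain ⟨g⟩ := hZ
      have := h𝓕.dim_eq g
      exact hK.surfaces Z (by omega)
    · exact hPC S hS Z hZ
  · rw [htadd, htmul, htmul, htsub, htone, ht₀, hκt, mul_assoc]
  · intro g hg
    have h1 := hmon₀ g hg
    have h2 := hκmon g hg
    simp only [Weil.comp] at h2 ⊢
    have h3 : g * (1 - e₀) = (1 - e₀) * g := by rw [mul_sub, sub_mul, h1, mul_one, one_mul]
    rw [mul_add, add_mul, h1]
    congr 1
    calc g * ((1 - e₀) * κ * (1 - e₀)) = (g * (1 - e₀)) * κ * (1 - e₀) := by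
          simp only [mul_assoc]
      _ = (1 - e₀) * (g * κ) * (1 - e₀) := by rw [h3]; simp only [mul_assoc]
      _ = (1 - e₀) * κ * (g * (1 - e₀)) := by rw [h2]; simp only [mul_assoc]
      _ = (1 - e₀) * κ * (1 - e₀) * g := by rw [h3]; simp only [mul_assoc]
  · intro i hi
    rw [hY] at hi
    have h1 := hpj₀ i hi
    simp only [Weil.comp] at h1 ⊢
    have h2 : (1 - e₀) * W.pj Y i = 0 := by rw [sub_mul, one_mul, h1, sub_self]
    rw [add_mul, h1, mul_assoc _ (1 - e₀) (W.pj Y i), h2, mul_zero, add_zero]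
  · intro y hy hg
    rw [hY] at hy
    have ha := hκinv y hy hg
    simp only [Weil.ap] at ha ⊢
    have h1 : e₀ *ᵥ y ∈ Submodule.span K (W.alg Y 1 : Set (W.H Y)) := hran₀ y hy
    have h2 : κ *ᵥ (e₀ *ᵥ y) ∈ Submodule.span K (W.alg Y 1 : Set (W.H Y)) :=
      ap_span hW hκcyc h1
    have h3 : (1 - e₀) *ᵥ (κ *ᵥ (e₀ *ᵥ y)) = 0 := by
      rw [Matrix.sub_mulVec, Matrix.one_mulVec, hspan _ h2, sub_self]
    have h4 : (1 - e₀) *ᵥ (y - κ *ᵥ y) = 0 := by
      rw [Matrix.sub_mulVec, Matrix.one_mulVec, hspan _ ha, sub_self]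
    rw [Matrix.mulVec_sub, sub_eq_zero] at h4
    have h6 : (1 - e₀) *ᵥ y = y - e₀ *ᵥ y := by rw [Matrix.sub_mulVec, Matrix.one_mulVec]
    have h5 : ((1 - e₀) * κ * (1 - e₀)) *ᵥ y = (1 - e₀) *ᵥ y := by
      rw [← Matrix.mulVec_mulVec, ← Matrix.mulVec_mulVec, h6, Matrix.mulVec_sub κ,
        Matrix.mulVec_sub (1 - e₀), h3, sub_zero, ← h6]
      exact h4.symm
    rw [Matrix.add_mulVec, h5, Matrix.sub_mulVec, Matrix.one_mulVec]
    abel

theorem ext_mul' {m : ℕ} {A B : W.Var m} (a a' : W.Hom A A) (b b' : W.Hom B B) :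
    W.ext a b * W.ext a' b' = W.ext (a * a') (b * b') := by
  ext x y
  unfold Weil.ext
  rw [Matrix.mul_apply]
  simp only [Matrix.of_apply]
  rw [← Equiv.sum_comp (W.pr A B), Fintype.sum_prod_type, Matrix.mul_apply, Matrix.mul_apply,
    Finset.sum_mul_sum]
  refine Finset.sum_congr rfl fun i _ => Finset.sum_congr rfl fun j _ => ?_
  rw [Equiv.symm_apply_apply]
  ring

/-- The fibre product of two curves over a function field: the geometric data. `dual₁` says that the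
monodromy preserves the Poincaré duality on `S₁`; `const` is the constant part; `e₁ ⊗ e₂` factors
through constant surfaces: products of two curves over `F n`, base changed, with the property `P` -/
structure CurvePair.Geometry (D : Duality W) {m : ℕ} {S₁ S₂ : W.Var m} (Q : CurvePair W S₁ S₂)
    (P : W.Var m → Prop) where
  graph : Graph D S₁ S₂
  const : Q.Const
  dim₁ : W.dim S₁ = 1
  dual₁ : ∀ g ∈ Q.π, D.t S₁ (Q.ρ₁ g) = Q.ρ₁ g⁻¹
  symm₁ : D.t S₁ const.e₁ = const.e₁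
  symm : D.t (W.prod S₁ S₂) (W.ext const.e₁ const.e₂) = W.ext const.e₁ const.e₂
  comm₂ : ∀ g ∈ Q.π, W.comp (Q.ρ₂ g) const.e₂ = W.comp const.e₂ (Q.ρ₂ g)
  thin : W.ext const.e₁ const.e₂ ∈ Through W P (W.prod S₁ S₂)

/-- **Fibre products over a curve of two surfaces fibred over the curve.** -/
theorem C_of_curves (hW : W.Calculus) (hK : Known W D) {𝓕 : Fibrations W}
    (h𝓕 : 𝓕.Theory D) {n : ℕ} {X : W.Var n} {S₁ S₂ : W.Var (n + 1)}
    (f : 𝓕.Fib X (W.prod S₁ S₂)) (hX : W.dim X = 3) (Q : CurvePair W S₁ S₂)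
    {P : W.Var (n + 1) → Prop} (hP2 : ∀ S, P S → W.dim S ≤ 2)
    (hPC : ∀ S, P S → ∀ Z, Nonempty (𝓕.Fib Z S) → W.C Z) (R : Q.Geometry D P)
    (hdeg : R.const.Degenerates)
    (hmon : ∀ g, g ∈ 𝓕.mon f ↔ ∃ p ∈ Q.π, g = W.ext (Q.ρ₁ p) (Q.ρ₂ p)) : W.C X := by
  refine C_of_fixed_mod hW hK h𝓕 f hX hP2 hPC R.thin ?_ R.symm ?_
  · intro g hg
    obtain ⟨p, hp, rfl⟩ := (hmon g).1 hg
    have h1 := R.const.comm₁ p
    have h2 := R.comm₂ p hp
    simp only [Weil.comp] at h1 h2 ⊢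
    rw [ext_mul', ext_mul', h1, h2]
  · intro y hy hg
    exact fixed_mod R.const hdeg hW R.graph R.dim₁ R.dual₁ R.symm₁ hy
      fun g hg' => hg _ ((hmon _).2 ⟨g, hg', rfl⟩)

end Pool.Agent.H16.FT
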