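import Pool.Agent.H64.FT.Class
import Pool.Agent.H16.FT.Mod

/-!
# Threefolds fibred over a curve, with a constant part: they are covered
-/

set_option autoImplicit false

open Matrix

namespace Pool.Agent.H16.FT

open Pool.Agent.H64.CC Pool.Agent.H64.FT

variable {K : Type} [Field K] [CharZero K] {W : Weil K} {D : Duality W}

/-- **Threefolds fibred over a curve whose fixed classes are algebraic modulo the image of a
correspondence `κ` which factors through surfaces whose models have algebraic Künneth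
projectors.** -/
theorem covered_fixed_mod (hW : W.Calculus) (hK : Known W D) {𝓕 : Fibrations W}
    (h𝓕 : 𝓕.Theory D) {n : ℕ} (X : W.Var n) (Y : W.Var (n + 1)) (f : 𝓕.Fib X Y)
    (hX : W.dim X = 3) (P : W.Var (n + 1) → Prop) (hP2 : ∀ S, P S → W.dim S ≤ 2)
    (hPC : ∀ S, P S → ∀ Z, Nonempty (𝓕.Fib Z S) → Covered D 𝓕 Z) (κ : W.Hom Y Y)
    (hκ : κ ∈ Through W P Y) (hκmon : ∀ g ∈ 𝓕.mon f, W.comp g κ = W.comp κ g)
    (hκt : D.t Y κ = κ)
    (hκinv : ∀ y, W.InH Y 2 y → (∀ g ∈ 𝓕.mon f, W.ap g y = y) →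
      y - W.ap κ y ∈ Submodule.span K (W.alg Y 1 : Set (W.H Y))) : Covered D 𝓕 X := by
  have hY : W.dim Y = 2 := by have := h𝓕.dim_eq f; omega
  obtain ⟨e₀, he₀, ht₀, hpj₀, hfix₀, hran₀⟩ := hK.murre Y hY
  have hκcyc : κ ∈ W.cyc Y Y 0 := through_cyc hW hκ
  have he₀cyc : e₀ ∈ W.cyc Y Y 0 := through_cyc hW he₀
  have hκK : κ ∈ Through W (fun S => W.dim S ≤ 1 ∨ P S) Y := through_mono (fun S h => Or.inr h) hκ
  have he₀K : e₀ ∈ Through W (fun S => W.dim S ≤ 1 ∨ P S) Y :=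
    through_mono (fun S h => Or.inl h) he₀
  have hspan : ∀ v ∈ Submodule.span K (W.alg Y 1 : Set (W.H Y)), e₀ *ᵥ v = v := by
    intro v hv
    induction hv using Submodule.span_induction with
    | mem x hx => exact hfix₀ x hx
    | zero => rw [Matrix.mulVec_zero]
    | add x y _ _ hx hy => rw [Matrix.mulVec_add, hx, hy]
    | smul q x _ hx => rw [Matrix.mulVec_smul, hx]
  have hmon₀ : ∀ g ∈ 𝓕.mon f, g * e₀ = e₀ * g := fun g hg =>
    murre_comm ht₀ hpj₀ hfix₀ hran₀ (h𝓕.mon_deg f g hg) (h𝓕.mon_dual f g hg)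
      (fun v hv => h𝓕.mon_alg f g hg 1 v hv)
  have hone : (1 - e₀ : W.Hom Y Y) ∈ W.cyc Y Y 0 := Submodule.sub_mem _ (hW.one_mem Y) he₀cyc
  have htadd : ∀ (a b : W.Hom Y Y), D.t Y (a + b) = D.t Y a + D.t Y b := fun a b =>
    (D.lin Y).map_add a b
  have htsub : ∀ (a b : W.Hom Y Y), D.t Y (a - b) = D.t Y a - D.t Y b := fun a b =>
    (D.lin Y).map_sub a b
  have htone : D.t Y (1 : W.Hom Y Y) = 1 := D.one Y
  have htmul : ∀ (a b : W.Hom Y Y), D.t Y (a * b) = D.t Y b * D.t Y a := fun a b =>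
    D.anti Y b a
  refine Covered.fib X Y f (fun _ => False) (fun S => W.dim S ≤ 1 ∨ P S)
    (e₀ + (1 - e₀) * κ * (1 - e₀)) (fun _ h => h.elim) (fun j h4 hj => absurd hj (by omega))
    ?_ ?_ (Submodule.add_mem _ he₀K (through_right hW (through_left hW hκK hone) hone)) ?_ ?_ ?_ ?_
  · rintro S (hS | hS)
    · exact h𝓕.models S (by omega)
    · exact h𝓕.models S (hP2 S hS)
  · rintro S (hS | hS) Z hZ
    · obtain ⟨g⟩ := hZ
      have := h𝓕.dim_eq g
      exact Covered.small Z (by omega)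
    · exact hPC S hS Z hZ
  · rw [htadd, htmul, htmul, htsub, htone, ht₀, hκt, mul_assoc]
  · intro g hg
    have h1 := hmon₀ g hg
    have h2 := hκmon g hg
    simp only [Weil.comp] at h2 ⊢
    have h3 : g * (1 - e₀) = (1 - e₀) * g := by rw [mul_sub, sub_mul, h1, mul_one, one_mul]
    rw [mul_add, add_mul, h1]
    congr 1
    calc g * ((1 - e₀) * κ * (1 - e₀)) = (g * (1 - e₀)) * κ * (1 - e₀) := by
          simp only [mul_assoc]
      _ = (1 - e₀) * (g * κ) * (1 - e₀) := by rw [h3]; simp only [mul_assoc]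
      _ = (1 - e₀) * κ * (g * (1 - e₀)) := by rw [h2]; simp only [mul_assoc]
      _ = (1 - e₀) * κ * (1 - e₀) * g := by rw [h3]; simp only [mul_assoc]
  · intro i hi
    rw [hY] at hi
    have h1 := hpj₀ i hi
    simp only [Weil.comp] at h1 ⊢
    have h2 : (1 - e₀) * W.pj Y i = 0 := by rw [sub_mul, one_mul, h1, sub_self]
    rw [add_mul, h1, mul_assoc _ (1 - e₀) (W.pj Y i), h2, mul_zero, add_zero]
  · intro y hy hg
    rw [hY] at hy
    have ha := hκinv y hy hg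
    simp only [Weil.ap] at ha ⊢
    have h1 : e₀ *ᵥ y ∈ Submodule.span K (W.alg Y 1 : Set (W.H Y)) := hran₀ y hy
    have h2 : κ *ᵥ (e₀ *ᵥ y) ∈ Submodule.span K (W.alg Y 1 : Set (W.H Y)) :=
      ap_span hW hκcyc h1
    have h3 : (1 - e₀) *ᵥ (κ *ᵥ (e₀ *ᵥ y)) = 0 := by
      rw [Matrix.sub_mulVec, Matrix.one_mulVec, hspan _ h2, sub_self]
    have h4 : (1 - e₀) *ᵥ (y - κ *ᵥ y) = 0 := by
      rw [Matrix.sub_mulVec, Matrix.one_mulVec, hspan _ ha, sub_self]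
    rw [Matrix.mulVec_sub, sub_eq_zero] at h4
    have h6 : (1 - e₀) *ᵥ y = y - e₀ *ᵥ y := by rw [Matrix.sub_mulVec, Matrix.one_mulVec]
    have h5 : ((1 - e₀) * κ * (1 - e₀)) *ᵥ y = (1 - e₀) *ᵥ y := by
      rw [← Matrix.mulVec_mulVec, ← Matrix.mulVec_mulVec, h6, Matrix.mulVec_sub κ,
        Matrix.mulVec_sub (1 - e₀), h3, sub_zero, ← h6]
      exact h4.symm
    rw [Matrix.add_mulVec, h5, Matrix.sub_mulVec, Matrix.one_mulVec]
    abel

/-- **Fibre products over a curve of two surfaces fibred over the curve.** -/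
theorem covered_const (hW : W.Calculus) (hK : Known W D) {𝓕 : Fibrations W}
    (h𝓕 : 𝓕.Theory D) {n : ℕ} (X : W.Var n) (S₁ S₂ : W.Var (n + 1))
    (f : 𝓕.Fib X (W.prod S₁ S₂)) (hX : W.dim X = 3) (Q : CurvePair W S₁ S₂)
    (P : W.Var (n + 1) → Prop) (hP2 : ∀ S, P S → W.dim S ≤ 2)
    (hPC : ∀ S, P S → ∀ Z, Nonempty (𝓕.Fib Z S) → Covered D 𝓕 Z) (R : Q.Geometry D P)
    (hdeg : R.const.Degenerates)
    (hmon : ∀ g, g ∈ 𝓕.mon f ↔ ∃ p ∈ Q.π, g = W.ext (Q.ρ₁ p) (Q.ρ₂ p)) : Covered D 𝓕 X := by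
  refine covered_fixed_mod hW hK h𝓕 X _ f hX P hP2 hPC _ R.thin ?_ R.symm ?_
  · intro g hg
    obtain ⟨p, hp, rfl⟩ := (hmon g).1 hg
    have h1 := R.const.comm₁ p
    have h2 := R.comm₂ p hp
    simp only [Weil.comp] at h1 h2 ⊢
    rw [ext_mul', ext_mul', h1, h2]
  · intro y hy hg
    exact fixed_mod R.const hdeg hW R.graph R.dim₁ R.dual₁ R.symm₁ hy
      fun g hg' => hg _ ((hmon _).2 ⟨g, hg', rfl⟩)

end Pool.Agent.H16.FT
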