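import Pool.Agent.H16.FT.KeyDefs

/-!
# The fixed part of the second cohomology of a surface over a function field
-/

set_option autoImplicit false

open Matrix

namespace Pool.Agent.H16.FT

open Pool.Agent.H64.CC

variable {K : Type} [Field K] [CharZero K] {W : Weil K}

/-- The Galois representation of a surface. Let `Y` be a surface over `F m`, `m = n + 1`, defined
over a finitely generated field `K₀ = k₀(C₀)` as above, for which the Tate conjecture for divisors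
is known, with the Galois groups `G` and `π` as above:

* `ρ` is the representation of `G` on `H(Y)`, in degree `2` on `H²(Y)(1)`; `tate` is the Tate
  conjecture for divisors: a class in `H²(Y)(1)` which is fixed by a subgroup of finite index is a
  combination of classes of divisors;
* for a place `c` of semistable reduction `low` is the part of `H²(Y)(1)` of negative weight in the
  monodromy filtration. The classes which are fixed by `π` are unramified at `c` and pure of weight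
  `0`, so they do not meet `low`. The place is of Tate type: an open subgroup `Dec` of the
  decomposition group acts trivially on the graded piece of weight `0` of the part of `H²(Y)(1)`
  fixed by the inertia group -/
structure TateSurface {m : ℕ} (Y : W.Var m) where
  G : Type
  [grp : Group G]
  π : Subgroup G
  normal : ∀ p ∈ π, ∀ g : G, g * p * g⁻¹ ∈ π
  ρ : G →* W.Hom Y Y
  deg : ∀ g, W.HasDeg 0 (ρ g)
  tate : ∀ G' : Subgroup G, G'.FiniteIndex → ∀ y, W.InH Y 2 y → (∀ g ∈ G', W.ap (ρ g) y = y) →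
    y ∈ Submodule.span K (W.alg Y 1 : Set (W.H Y))
  Dec : Subgroup G
  dec_index : (π ⊔ Dec).FiniteIndex
  low : Submodule K (W.H Y)
  low_fixed : ∀ y ∈ low, W.InH Y 2 y → (∀ g ∈ π, W.ap (ρ g) y = y) → y = 0
  dec : ∀ g ∈ Dec, ∀ y, W.InH Y 2 y → (∀ p ∈ π, W.ap (ρ p) y = y) → W.ap (ρ g) y - y ∈ low

attribute [instance] TateSurface.grp

/-! ## proofs -/

theorem inH_mulVec {n m : ℕ} {X : W.Var n} {Y : W.Var m} {f : W.Hom X Y} (hf : W.HasDeg 0 f)
    {i : ℕ} {v : W.H X} (hv : W.InH X i v) : W.InH Y i (f *ᵥ v) := by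
  intro b hb
  by_contra hne
  apply hb
  change ∑ a, f b a * v a = 0
  refine Finset.sum_eq_zero fun a _ => ?_
  by_cases h1 : f b a = 0
  · rw [h1, zero_mul]
  · by_cases h2 : v a = 0
    · rw [h2, mul_zero]
    · exfalso
      have := hf b a h1
      have := hv a h2
      omega

theorem inH_sub {n : ℕ} {X : W.Var n} {i : ℕ} {v w : W.H X} (hv : W.InH X i v)
    (hw : W.InH X i w) : W.InH X i (v - w) := by
  intro a ha
  by_cases h1 : v a = 0
  · by_cases h2 : w a = 0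
    · exact absurd (by rw [Pi.sub_apply, h1, h2, sub_zero]) ha
    · exact hw a h2
  · exact hv a h1

theorem inH_pj {n : ℕ} {X : W.Var n} (i : ℕ) (v : W.H X) : W.InH X i (W.pj X i *ᵥ v) := by
  intro a ha
  by_contra h
  apply ha
  unfold Weil.pj
  rw [Matrix.mulVec_diagonal, if_neg h, zero_mul]

theorem pj_of_inH {n : ℕ} {X : W.Var n} {i : ℕ} {v : W.H X} (hv : W.InH X i v) :
    W.pj X i *ᵥ v = v := by
  ext a
  unfold Weil.pj
  rw [Matrix.mulVec_diagonal]
  by_cases h : W.deg X a = i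
  · rw [if_pos h, one_mul]
  · rw [if_neg h, zero_mul]
    by_contra h2
    exact h (hv a (fun h3 => h2 h3.symm))

/-- the normaliser: the conjugates of an equivariant map are equivariant -/
theorem conj_equiv {m : ℕ} {S₁ S₂ : W.Var m} (P : CurvePair W S₁ S₂) {f : W.Hom S₁ S₂}
    (hf : ∀ p ∈ P.π, P.ρ₂ p * f = f * P.ρ₁ p) (g : P.G) :
    ∀ p ∈ P.π, P.ρ₂ p * (P.ρ₂ g * f * P.ρ₁ g⁻¹) = P.ρ₂ g * f * P.ρ₁ g⁻¹ * P.ρ₁ p := by
  intro p hp
  have h1 := P.normal p hp g⁻¹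
  rw [inv_inv] at h1
  have h2 := hf _ h1
  have e1 : P.ρ₂ p * P.ρ₂ g = P.ρ₂ g * P.ρ₂ (g⁻¹ * p * g) := by
    rw [← map_mul, ← map_mul]
    congr 1
    group
  have e2 : P.ρ₁ g⁻¹ * P.ρ₁ p = P.ρ₁ (g⁻¹ * p * g) * P.ρ₁ g⁻¹ := by
    rw [← map_mul, ← map_mul]
    congr 1
    group
  rw [← Matrix.mul_assoc, ← Matrix.mul_assoc, e1, Matrix.mul_assoc (P.ρ₂ g) _ f, h2,
    Matrix.mul_assoc _ (P.ρ₁ g⁻¹) (P.ρ₁ p), e2, ← Matrix.mul_assoc, ← Matrix.mul_assoc]

/-- A map which commutes with `π` commutes on `H¹` with a subgroup of finite index. -/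
theorem finite_index {m : ℕ} {S₁ S₂ : W.Var m} (P : CurvePair W S₁ S₂) (hP : P.Degenerates)
    {f : W.Hom S₁ S₂} (hdeg : W.HasDeg 0 f) (hf : ∀ p ∈ P.π, P.ρ₂ p * f = f * P.ρ₁ p) :
    ∀ g, (∀ c, g ∈ P.π ⊔ P.Dec c) → ∀ v, W.InH S₁ 1 v →
      (P.ρ₂ g * f * P.ρ₁ g⁻¹) *ᵥ v = f *ᵥ v := by
  -- elements of `π ⊔ Dec c` fix `f` on the image of `N`
  have hπ : ∀ p ∈ P.π, P.ρ₂ p * f * P.ρ₁ p⁻¹ = f := fun p hp => by
    rw [hf p hp, Matrix.mul_assoc, ← map_mul, mul_inv_cancel, map_one, Matrix.mul_one]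
  intro g hg
  obtain ⟨h, hh⟩ : ∃ h : W.Hom S₁ S₂, h = P.ρ₂ g * f * P.ρ₁ g⁻¹ - f := ⟨_, rfl⟩
  have hheq : ∀ p ∈ P.π, P.ρ₂ p * h = h * P.ρ₁ p := fun p hp => by
    rw [hh, Matrix.mul_sub, Matrix.sub_mul, conj_equiv P hf g p hp, hf p hp]
  -- `h` kills the images of the operators `N`
  have hkill : ∀ c v, W.InH S₁ 1 v → h *ᵥ (P.ρ₁ (P.τ c) *ᵥ v - v) = 0 := by
    intro c v hv
    -- write `g = σ p` with `σ` in `Dec c` and `p` in `π`
    have hN : P.π.Normal := ⟨P.normal⟩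
    obtain ⟨p, hp, σ, hσ, rfl⟩ : ∃ p ∈ P.π, ∃ σ ∈ P.Dec c, p * σ = g := by
      have := hg c
      rw [Subgroup.mem_sup_of_normal_left] at this
      exact this
    obtain ⟨q, hq⟩ : ∃ q, q = σ⁻¹ * p * σ := ⟨_, rfl⟩
    have hqπ : q ∈ P.π := by
      rw [hq]
      have := P.normal p hp σ⁻¹
      rwa [inv_inv] at this
    have hgq : p * σ = σ * q := by
      rw [hq]
      group
    have e0 : P.ρ₂ (p * σ) * f * P.ρ₁ (p * σ)⁻¹ = P.ρ₂ σ * f * P.ρ₁ σ⁻¹ := by
      rw [hgq, _root_.mul_inv_rev, map_mul, map_mul]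
      have e1 : P.ρ₂ σ * P.ρ₂ q * f * (P.ρ₁ q⁻¹ * P.ρ₁ σ⁻¹) =
          P.ρ₂ σ * (P.ρ₂ q * f * P.ρ₁ q⁻¹) * P.ρ₁ σ⁻¹ := by
        simp only [Matrix.mul_assoc]
      rw [e1, hπ q hqπ]
    rw [hh, e0, Matrix.sub_mulVec, sub_eq_zero, ← Matrix.mulVec_mulVec, ← Matrix.mulVec_mulVec]
    have hσ' : σ⁻¹ ∈ P.Dec c := (P.Dec c).inv_mem hσ
    have e2 := P.dec₁ c σ⁻¹ hσ' v hv
    simp only [Weil.ap] at e2
    rw [e2]
    -- `f` commutes with `N`
    have e3 : f *ᵥ (P.ρ₁ (P.τ c) *ᵥ v - v) = P.ρ₂ (P.τ c) *ᵥ (f *ᵥ v) - f *ᵥ v := by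
      rw [Matrix.mulVec_sub, Matrix.mulVec_mulVec, Matrix.mulVec_mulVec, hf _ (P.τ_mem c)]
    rw [e3]
    have e4 := P.dec₂ c σ hσ (f *ᵥ v) (inH_mulVec hdeg hv)
    simp only [Weil.ap] at e4
    exact e4
  -- the kernel of `h`
  intro v hv
  have := hP (LinearMap.ker (Matrix.mulVecLin h)) (fun p hp w hw => by
      rw [LinearMap.mem_ker, Matrix.mulVecLin_apply] at hw ⊢
      simp only [Weil.ap]
      rw [Matrix.mulVec_mulVec, ← hheq p hp, ← Matrix.mulVec_mulVec, hw, Matrix.mulVec_zero])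
    (fun c w hw => by
      rw [LinearMap.mem_ker, Matrix.mulVecLin_apply]
      exact hkill c w hw) v hv
  rw [LinearMap.mem_ker, Matrix.mulVecLin_apply, hh, Matrix.sub_mulVec, sub_eq_zero] at this
  exact this

/-- a matrix is determined by its action on homogeneous vectors -/
theorem ext_inH {n m : ℕ} {X : W.Var n} {Y : W.Var m} {f g : W.Hom X Y}
    (h : ∀ i v, W.InH X i v → f *ᵥ v = g *ᵥ v) : f = g := by
  ext b a
  have := h (W.deg X a) (Pi.single a 1) (fun a' ha' => by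
    by_contra hne
    apply ha'
    rw [Pi.single_apply, if_neg]
    rintro rfl
    exact hne rfl)
  rw [Matrix.mulVec_single_one, Matrix.mulVec_single_one] at this
  exact congrFun this b

/-- **Every map of degree `0` which commutes with the geometric monodromy group is a combination of
correspondences.** -/
theorem equivariant_mem {m : ℕ} {S₁ S₂ : W.Var m} (P : CurvePair W S₁ S₂) (hP : P.Degenerates)
    {f : W.Hom S₁ S₂} (hdeg : W.HasDeg 0 f) (hf : ∀ p ∈ P.π, P.ρ₂ p * f = f * P.ρ₁ p) :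
    f ∈ Submodule.span K (W.cyc S₁ S₂ 0 : Set (W.Hom S₁ S₂)) := by
  have hfin : (⨅ c, (P.π ⊔ P.Dec c)).FiniteIndex := by
    have := P.dec_index
    exact Subgroup.finiteIndex_iInf this
  refine P.tate _ hfin f hdeg fun g hg => ?_
  rw [Subgroup.mem_iInf] at hg
  have h1 := finite_index P hP hdeg hf g hg
  -- in all degrees
  have h2 : P.ρ₂ g * f * P.ρ₁ g⁻¹ = f := by
    refine ext_inH fun i v hv => ?_
    by_cases hi : i = 1
    · rw [hi] at hv
      exact h1 v hv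
    · obtain ⟨c, hc1, hc2⟩ := P.scalar g i hi
      simp only [Weil.comp] at hc1 hc2
      have hv' : P.ρ₁ g *ᵥ v = c • v := by
        have e : P.ρ₁ g *ᵥ v = (P.ρ₁ g * W.pj S₁ i) *ᵥ v := by
          rw [← Matrix.mulVec_mulVec, pj_of_inH hv]
        rw [e, hc1, Matrix.smul_mulVec, pj_of_inH hv]
      have hfv : P.ρ₂ g *ᵥ (f *ᵥ v) = c • (f *ᵥ v) := by
        have e : P.ρ₂ g *ᵥ (f *ᵥ v) = (P.ρ₂ g * W.pj S₂ i) *ᵥ (f *ᵥ v) := by
          rw [← Matrix.mulVec_mulVec, pj_of_inH (inH_mulVec hdeg hv)]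
        rw [e, hc2, Matrix.smul_mulVec, pj_of_inH (inH_mulVec hdeg hv)]
      have hinv : P.ρ₁ g⁻¹ *ᵥ (P.ρ₁ g *ᵥ v) = v := by
        rw [Matrix.mulVec_mulVec, ← map_mul, inv_mul_cancel, map_one, Matrix.one_mulVec]
      rw [hv', Matrix.mulVec_smul] at hinv
      -- `c` is not zero unless `v = 0`
      by_cases hc : c = 0
      · rw [hc, zero_smul] at hinv
        rw [← hinv, Matrix.mulVec_zero, Matrix.mulVec_zero]
      · have e5 : P.ρ₁ g⁻¹ *ᵥ v = c⁻¹ • v := by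
          rw [← hinv, smul_smul, inv_mul_cancel₀ hc, one_smul, hinv]
        rw [← Matrix.mulVec_mulVec, e5, Matrix.mulVec_smul, ← Matrix.mulVec_mulVec, hfv,
          smul_smul, inv_mul_cancel₀ hc, one_smul]
  change P.ρ₂ g * f = f * P.ρ₁ g
  calc P.ρ₂ g * f = P.ρ₂ g * f * (P.ρ₁ g⁻¹ * P.ρ₁ g) := by
        rw [← map_mul, inv_mul_cancel, map_one, Matrix.mul_one]
    _ = P.ρ₂ g * f * P.ρ₁ g⁻¹ * P.ρ₁ g := by rw [Matrix.mul_assoc _ (P.ρ₁ g⁻¹) (P.ρ₁ g)]
    _ = f * P.ρ₁ g := by rw [h2]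

/-- **The invariant classes in `H²(S₁ × S₂)` are combinations of classes of divisors.** -/
theorem fixed_prod {m : ℕ} {S₁ S₂ : W.Var m} (P : CurvePair W S₁ S₂) (hP : P.Degenerates)
    (C : P.Class) {y : W.H (W.prod S₁ S₂)} (hy : W.InH (W.prod S₁ S₂) 2 y)
    (hfix : ∀ g ∈ P.π, W.ap (W.ext (P.ρ₁ g) (P.ρ₂ g)) y = y) :
    y ∈ Submodule.span K (W.alg (W.prod S₁ S₂) 1 : Set (W.H (W.prod S₁ S₂))) := by
  obtain ⟨f, hdeg, rfl⟩ := C.surj y hy
  have hadd : ∀ a b, C.cl (a + b) = C.cl a + C.cl b := C.lin.map_add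
  have hsmul : ∀ (q : K) a, C.cl (q • a) = q • C.cl a := C.lin.map_smul
  have hzero : C.cl 0 = 0 := by
    have := hsmul 0 0
    rwa [zero_smul, zero_smul] at this
  have hsub : ∀ a b, C.cl (a - b) = C.cl a - C.cl b := fun a b => by
    have h1 := hadd (a - b) b
    rw [sub_add_cancel] at h1
    rw [h1, add_sub_cancel_right]
  have hf : ∀ p ∈ P.π, P.ρ₂ p * f = f * P.ρ₁ p := fun p hp => by
    have h1 := hfix p hp
    rw [C.equiv p hp f, ← sub_eq_zero, ← hsub] at h1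
    have h2 := C.inj _ h1
    rw [sub_eq_zero] at h2
    simp only [Weil.comp] at h2
    calc P.ρ₂ p * f = P.ρ₂ p * f * (P.ρ₁ p⁻¹ * P.ρ₁ p) := by
          rw [← map_mul, inv_mul_cancel, map_one, Matrix.mul_one]
      _ = P.ρ₂ p * f * P.ρ₁ p⁻¹ * P.ρ₁ p := by rw [Matrix.mul_assoc _ (P.ρ₁ p⁻¹) (P.ρ₁ p)]
      _ = f * P.ρ₁ p := by rw [h2]
  have h3 := equivariant_mem P hP hdeg hf
  have h4 : ∀ x ∈ Submodule.span K (W.cyc S₁ S₂ 0 : Set (W.Hom S₁ S₂)),
      C.cl x ∈ Submodule.span K (W.alg (W.prod S₁ S₂) 1 : Set (W.H (W.prod S₁ S₂))) := by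
    intro x hx
    induction hx using Submodule.span_induction with
    | mem x hx => exact Submodule.subset_span (C.alg x hx)
    | zero =>
      rw [hzero]
      exact zero_mem _
    | add x y _ _ hx hy =>
      rw [hadd]
      exact add_mem hx hy
    | smul q x _ hx =>
      rw [hsmul]
      exact Submodule.smul_mem _ q hx
  exact h4 f h3

/-- **The invariant classes in `H²(Y)` are combinations of classes of divisors if the Tate
conjecture holds for `Y` and one place is of Tate type.** -/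
theorem fixed_tate {m : ℕ} {Y : W.Var m} (P : TateSurface Y) {y : W.H Y}
    (hy : W.InH Y 2 y) (hfix : ∀ g ∈ P.π, W.ap (P.ρ g) y = y) :
    y ∈ Submodule.span K (W.alg Y 1 : Set (W.H Y)) := by
  refine P.tate _ P.dec_index y hy ?_
  have hN : P.π.Normal := ⟨P.normal⟩
  have hD : ∀ g ∈ P.Dec, W.ap (P.ρ g) y = y := by
    intro g hg
    have h1 := P.dec g hg y hy hfix
    have h2 : W.InH Y 2 (W.ap (P.ρ g) y - y) := inH_sub (inH_mulVec (P.deg g) hy) hy
    have h3 : ∀ p ∈ P.π, W.ap (P.ρ p) (W.ap (P.ρ g) y - y) = W.ap (P.ρ g) y - y := by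
      intro p hp
      have h4 := P.normal p hp g⁻¹
      rw [inv_inv] at h4
      have h5 := hfix _ h4
      simp only [Weil.ap] at h5 ⊢
      rw [Matrix.mulVec_sub]
      have h6 := hfix p hp
      simp only [Weil.ap] at h6
      rw [h6]
      congr 1
      rw [Matrix.mulVec_mulVec, ← map_mul]
      have e : p * g = g * (g⁻¹ * p * g) := by group
      rw [e, map_mul, ← Matrix.mulVec_mulVec, h5]
    have h7 := P.low_fixed _ h1 h2 h3
    exact sub_eq_zero.1 h7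
  intro g hg
  rw [Subgroup.mem_sup_of_normal_left] at hg
  obtain ⟨p, hp, σ, hσ, rfl⟩ := hg
  have h1 := hD σ hσ
  have h2 := hfix p hp
  simp only [Weil.ap] at h1 h2 ⊢
  rw [map_mul, ← Matrix.mulVec_mulVec, h1, h2]

end Pool.Agent.H16.FT
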