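import Pool.Agent.H64.CC.Weil

/-!
# The Galois representations of two curves
-/

set_option autoImplicit false

open Matrix

namespace Pool.Agent.H16.FT

open Pool.Agent.H64.CC

variable {K : Type} [Field K] [CharZero K] (W : Weil K)

/-- The Galois representations of two curves. Let `S₁` and `S₂` be curves over `F m`, `m = n + 1`,
which are defined over a finitely generated field `K₀ = k₀(C₀)`, where `C₀` is a curve over the
finitely generated field `k₀ ⊂ F n`, and which have semistable reduction at the places of `C₀`.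

* `G` is the Galois group of `K₀` and `π` is the Galois group of the compositum of `K₀` and of `F n`
  (the geometric monodromy group); `ρ₁` and `ρ₂` are the representations of `G` on `H(S₁)` and
  `H(S₂)`; in the degrees `0` and `2` the group `G` acts on both by the same scalars;
* `tate`: a map of degree `0` from `H(S₁)` to `H(S₂)` which commutes with a subgroup of finite index
  of `G` is a combination of correspondences: the theorem of Zarhin (and Mori) on the homomorphisms
  of abelian varieties over finitely generated fields;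
* `place` is a finite set of places of `C₀` of bad reduction, `τ c` is a topological generator of
  the tame inertia group of the place `c`, acting on `H¹(Sᵢ)` by `1 + N`, where `N ^ 2 = 0` and the
  image of `N` is the space of the characters of the toric part of the reduction of the Jacobian.
  The decomposition group acts on it through a finite quotient, and `Dec c` is an open subgroup of
  the decomposition group which acts trivially. The image of `Dec c` in the Galois group of `k₀` has
  finite index. -/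
structure CurvePair {m : ℕ} (S₁ S₂ : W.Var m) where
  G : Type
  [grp : Group G]
  π : Subgroup G
  normal : ∀ p ∈ π, ∀ g : G, g * p * g⁻¹ ∈ π
  ρ₁ : G →* W.Hom S₁ S₁
  ρ₂ : G →* W.Hom S₂ S₂
  deg₁ : ∀ g, W.HasDeg 0 (ρ₁ g)
  deg₂ : ∀ g, W.HasDeg 0 (ρ₂ g)
  scalar : ∀ (g : G) (i : ℕ), i ≠ 1 → ∃ c : K,
    W.comp (ρ₁ g) (W.pj S₁ i) = c • W.pj S₁ i ∧ W.comp (ρ₂ g) (W.pj S₂ i) = c • W.pj S₂ i
  tate : ∀ G' : Subgroup G, G'.FiniteIndex → ∀ f : W.Hom S₁ S₂, W.HasDeg 0 f →
    (∀ g ∈ G', W.comp (ρ₂ g) f = W.comp f (ρ₁ g)) →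
    f ∈ Submodule.span K (W.cyc S₁ S₂ 0 : Set (W.Hom S₁ S₂))
  place : Type
  [fin : Finite place]
  τ : place → G
  τ_mem : ∀ c, τ c ∈ π
  Dec : place → Subgroup G
  dec_index : ∀ c, (π ⊔ Dec c).FiniteIndex
  dec₁ : ∀ c, ∀ g ∈ Dec c, ∀ v, W.InH S₁ 1 v →
    W.ap (ρ₁ g) (W.ap (ρ₁ (τ c)) v - v) = W.ap (ρ₁ (τ c)) v - v
  dec₂ : ∀ c, ∀ g ∈ Dec c, ∀ v, W.InH S₂ 1 v →
    W.ap (ρ₂ g) (W.ap (ρ₂ (τ c)) v - v) = W.ap (ρ₂ (τ c)) v - v

attribute [instance] CurvePair.grp CurvePair.fin

variable {W}

/-- `H¹(S₁)` degenerates: it is generated, as a representation of `π`, by the images of the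
monodromy operators at the places of bad reduction. As `H¹(S₁)` is semisimple this means that no
abelian subvariety of the Jacobian of `S₁`, not even after extension of the coefficients, has good
reduction at all places. This is so if `S₁` is an elliptic curve whose `j`-invariant is not
constant, if `S₁` has a place of totally degenerate reduction, or if `S₁` is the generic fibre of a
Lefschetz pencil on a surface whose first Betti number is zero -/
def CurvePair.Degenerates {m : ℕ} {S₁ S₂ : W.Var m} (P : CurvePair W S₁ S₂) : Prop :=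
  ∀ U : Submodule K (W.H S₁), (∀ g ∈ P.π, ∀ v ∈ U, W.ap (P.ρ₁ g) v ∈ U) →
    (∀ c, ∀ v, W.InH S₁ 1 v → W.ap (P.ρ₁ (P.τ c)) v - v ∈ U) → ∀ v, W.InH S₁ 1 v → v ∈ U

/-- the class on `S₁ × S₂` of a map from `H(S₁)` to `H(S₂)`, by Poincaré duality on the curve `S₁`:
the classes of correspondences are the classes of divisors, and the action of the monodromy group on
`H(S₁ × S₂)` is the action on the maps -/
structure CurvePair.Class {m : ℕ} {S₁ S₂ : W.Var m} (P : CurvePair W S₁ S₂) where
  cl : W.Hom S₁ S₂ → W.H (W.prod S₁ S₂)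
  lin : IsLinearMap K cl
  inj : ∀ f, cl f = 0 → f = 0
  surj : ∀ y, W.InH (W.prod S₁ S₂) 2 y → ∃ f, W.HasDeg 0 f ∧ cl f = y
  alg : ∀ f ∈ W.cyc S₁ S₂ 0, cl f ∈ W.alg (W.prod S₁ S₂) 1
  equiv : ∀ g ∈ P.π, ∀ f, W.ap (W.ext (P.ρ₁ g) (P.ρ₂ g)) (cl f) =
    cl (W.comp (W.comp (P.ρ₂ g) f) (P.ρ₁ g⁻¹))

end Pool.Agent.H16.FT
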