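import Pool.Agent.H16.FT.Key

/-!
# The fixed part of the third cohomology of the product of a surface and a curve
-/

set_option autoImplicit false

open Matrix

namespace Pool.Agent.H16.FT

open Pool.Agent.H64.CC

variable {K : Type} [Field K] [CharZero K] (W : Weil K)

/-- The monodromy representations of a surface `A` and of a curve `S` over `F m`, `m = n + 1`,
which are defined over the function field of a curve `C` over `F n` and have semistable reduction
at the places of `C`: `π` is the Galois group, `ρA`, `ρS` are the representations on `H(A)` and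
`H(S)`, and `τ c` is a generator of the tame inertia group of the place `c`. It acts on `H¹(S)` by
`1 + N` with `N ^ 2 = 0` -/
structure SurfaceCurve {m : ℕ} (A S : W.Var m) where
  π : Type
  [grp : Group π]
  ρA : π →* W.Hom A A
  ρS : π →* W.Hom S S
  degA : ∀ g, W.HasDeg 0 (ρA g)
  degS : ∀ g, W.HasDeg 0 (ρS g)
  place : Type
  τ : place → π
  unip : ∀ c v, W.InH S 1 v → W.ap (ρS (τ c)) (W.ap (ρS (τ c)) v - v) =
    W.ap (ρS (τ c)) v - v

attribute [instance] SurfaceCurve.grp

variable {W}

/-- the part `e H²(A)` of `H²(A)` is generated, as a representation of `π`, by the images of the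
squares of the monodromy operators `τ c - 1`. This is so if `A = E × E`, where `E` is an elliptic
curve with non-constant `j`-invariant, and `e` is the projector onto the complement of the classes
of divisors, which is the symmetric square of `H¹(E)` -/
def SurfaceCurve.Maximal {m : ℕ} {A S : W.Var m} (P : SurfaceCurve W A S) (e : W.Hom A A) :
    Prop :=
  ∀ U : Submodule K (W.H A), (∀ g, ∀ v ∈ U, W.ap (P.ρA g) v ∈ U) →
    (∀ c, ∀ v, W.InH A 2 v → W.ap (P.ρA (P.τ c)) (W.ap (P.ρA (P.τ c)) v - v) -
      (W.ap (P.ρA (P.τ c)) v - v) ∈ U) →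
    ∀ v, W.InH A 2 v → W.ap e v ∈ U

/-- **An equivariant map from `H²(A)` to `H¹(S)` is zero on the part of maximal degeneration.** -/
theorem equivariant_zero {m : ℕ} {A S : W.Var m} (P : SurfaceCurve W A S) {e : W.Hom A A}
    (hP : P.Maximal e) {f : W.Hom A S}
    (hdeg : ∀ v, W.InH A 2 v → W.InH S 1 (W.ap f v))
    (hf : ∀ g, W.comp (P.ρS g) f = W.comp f (P.ρA g)) {v : W.H A} (hv : W.InH A 2 v) :
    W.ap f (W.ap e v) = 0 := by
  have heq : ∀ g w, f *ᵥ (P.ρA g *ᵥ w) = P.ρS g *ᵥ (f *ᵥ w) := fun g w => by
    have := hf g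
    simp only [Weil.comp] at this
    rw [Matrix.mulVec_mulVec, Matrix.mulVec_mulVec, this]
  have h := hP (LinearMap.ker (Matrix.mulVecLin f))
    (fun g w hw => by
      rw [LinearMap.mem_ker, Matrix.mulVecLin_apply] at hw ⊢
      simp only [Weil.ap]
      rw [heq, hw, Matrix.mulVec_zero])
    (fun c w hw => by
      rw [LinearMap.mem_ker, Matrix.mulVecLin_apply]
      simp only [Weil.ap]
      have e1 : f *ᵥ (P.ρA (P.τ c) *ᵥ w - w) = P.ρS (P.τ c) *ᵥ (f *ᵥ w) - f *ᵥ w := by
        rw [Matrix.mulVec_sub, heq]
      rw [Matrix.mulVec_sub, heq, e1]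
      have := P.unip c (f *ᵥ w) (hdeg w hw)
      simp only [Weil.ap] at this
      rw [this, sub_self]) v hv
  rw [LinearMap.mem_ker, Matrix.mulVecLin_apply] at h
  exact h

end Pool.Agent.H16.FT
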