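import Pool.Agent.H64.FT.Class

/-!
# Threefolds which are not of general type
-/

set_option autoImplicit false

open Matrix

namespace Pool.Agent.H16.FT

open Pool.Agent.H64.CC Pool.Agent.H64.FT

variable {K K' : Type} [Field K] [CharZero K] [Field K'] [CharZero K']

/-- The classification of curves and surfaces, for the `ℓ`-adic cohomology `W` and the crystalline
cohomology `W'` with their fibrations over curves:

* `kod X`: the Kodaira dimension of `X`; `Abelian A`: `A` is an abelian variety; `kleiman`: the
  Künneth projectors of abelian varieties are algebraic;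
* `LowGenus X`: `X` is covered by an algebraic family of curves of geometric genus at most `1`. For
  example `X` is uniruled, or it has a dominant rational map to a variety of dimension `dim X - 1`
  with fibres of geometric genus `1`;
* `cover`: if `X` is a threefold, two-dimensional subfamilies suffice, and so `X` is dominated by a
  threefold with a map to a surface `Z` whose generic fibre is a smooth curve of genus at most `1`
  with a rational point (after a finite base change, which can be inseparable). If the fibres are
  rational, or elliptic with constant `j`-invariant, then it is birational to the product `A × B` of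
  a curve and a surface, after a finite base change. Otherwise let `Z → C` be the Stein factorisation
  of the `j`-invariant. Then it is birational, after a finite base change, to the fibre product of
  `Z` and of an elliptic fibration over `C` with non-constant `j`-invariant, with the generic fibres
  `S₂` and `S₁`, and `S₁` degenerates at the poles of `j`. The fibre product has a resolution of
  singularities which is an isomorphism over the regular locus (Cossart and Piltant). The theorem of
  Zarhin and Mori on homomorphisms of abelian varieties is included in `CurvePair`;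
* `fibred`: let `f : X → C` be a fibration of a threefold over a curve with geometric generic fibre
  `Y` which is not of general type. By the classification of Bombieri and Mumford `Y` is ruled,
  elliptic or quasi-elliptic, a `K3` surface or an abelian surface, up to birational equivalence. A
  `K3` surface is covered by curves of geometric genus at most `1`, by the theorem of Bogomolov and
  Mumford in characteristic `0`, the lifting theorem of Deligne, and specialisation of the family of
  curves. So `X` is covered by curves of geometric genus at most `1` if `Y` is not an abelian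
  surface, and also if `Y` is a supersingular abelian surface. For the other abelian surfaces, if the
  monodromy group acts trivially on the transcendental part `T` of `H²(Y)` then it acts on `H¹(Y)`
  through a finite group, and `X` is dominated by the product of an abelian surface and a curve
  (theorem of Zarhin and Mori); and if it does not, `H²(Y)` is as in `SlopeSurface` -/
structure Classification (W : Weil K) (𝓕 : Fibrations W) (W' : Weil K') (𝓕' : Fibrations W')
    (Φ : H90.FT.Comparison W W') where
  kod : ∀ {n : ℕ}, W.Var n → WithBot ℕ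
  Abelian : ∀ {n : ℕ}, W.Var n → Prop
  kleiman : ∀ {n : ℕ} (A : W.Var n), Abelian A → W.C A
  LowGenus : ∀ {n : ℕ}, W.Var n → Prop
  cover : ∀ {n : ℕ} (X : W.Var n), W.dim X = 3 → LowGenus X →
    (∃ A B : W.Var n, W.dim A ≤ 2 ∧ W.dim B ≤ 2 ∧ RatDominates W (W.prod A B) X) ∨
    ∃ (X' : W.Var n) (S₁ S₂ : W.Var (n + 1)) (f : 𝓕.Fib X' (W.prod S₁ S₂))
      (P : CurvePair W S₁ S₂), RatDominates W X' X ∧ W.dim X' = 3 ∧ P.Degenerates ∧
        Nonempty P.Class ∧ ∀ g ∈ P.π, W.ext (P.ρ₁ g) (P.ρ₂ g) ∈ 𝓕.mon f
  fibred : ∀ {n : ℕ} (X : W.Var n) (Y : W.Var (n + 1)), Nonempty (𝓕.Fib X Y) → W.dim Y = 2 →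
    kod Y < 2 → LowGenus X ∨
    (∃ A B : W.Var n, W.dim A ≤ 2 ∧ W.dim B ≤ 2 ∧ RatDominates W (W.prod A B) X) ∨
    ∃ (Y' : W'.Var (n + 1)) (f' : 𝓕'.Fib (Φ.var X) Y'), W'.dim Y' = 2 ∧
      SlopeSurface W' Y' (𝓕'.mon f')

variable {W : Weil K} {𝓕 : Fibrations W} {W' : Weil K'} {𝓕' : Fibrations W'}
  {Φ : H90.FT.Comparison W W'}

/-- The threefold `X` has a dominant rational map to a curve whose fibres are surfaces which are not
of general type: after a base change a threefold `X'` which dominates `X` has a fibration over a curve
whose geometric generic fibre `Y` is a surface of Kodaira dimension less than `2`. (A threefold with a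
dominant rational map to a surface whose fibres are curves which are not of general type is covered
by curves of genus at most `1`) -/
def Classification.Special (T : Classification W 𝓕 W' 𝓕' Φ) {n : ℕ} (X : W.Var n) : Prop :=
  ∃ (X' : W.Var n) (Y : W.Var (n + 1)), RatDominates W X' X ∧ W.dim X' = 3 ∧
    Nonempty (𝓕.Fib X' Y) ∧ T.kod Y < 2

/-- Consequences of the minimal model program for threefolds, in characteristic `p > 5`. The
threefolds of Kodaira dimension `-∞` are uniruled (Hacon and Xu, Birkar, Xu and Zhang). The generic
fibre of the Iitaka fibration of a threefold of Kodaira dimension `1` or `2` is a surface or a curve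
of Kodaira dimension `0`, and its geometric generic fibre is of Kodaira dimension at most `0`. The
same is true for the generic fibre of the Albanese map of a threefold of Kodaira dimension `0`, after
Stein factorisation, if `H¹(X) ≠ 0` (Zhang), if the Albanese map is not generically finite; if it is,
then `X` is birational to an abelian variety (Hacon, Patakfalvi and Zhang) -/
def Classification.MinimalModels (T : Classification W 𝓕 W' 𝓕' Φ) : Prop :=
  ∀ {n : ℕ} (X : W.Var n), W.dim X = 3 → T.kod X ≠ 3 →
    (T.kod X = 0 → ∃ v, W.InH X 1 v ∧ v ≠ 0) →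
    T.LowGenus X ∨ T.Special X ∨ ∃ A, T.Abelian A ∧ RatDominates W A X

section theorems

variable {D : Duality W} {D' : Duality W'}

theorem C_of_lowGenus (hW : W.Calculus) (hP : W.Products) (hK : Known W D) (h𝓕 : 𝓕.Theory D)
    (T : Classification W 𝓕 W' 𝓕' Φ) {n : ℕ} (X : W.Var n) (hX : W.dim X = 3)
    (h : T.LowGenus X) : W.C X := by
  rcases T.cover X hX h with ⟨A, B, hA, hB, hdom⟩ | ⟨X', S₁, S₂, f, P, hdom, hX', hd, hc, hm⟩
  · exact C_of_rat hW hK (by omega) hdom (C_prod hP (hK.surfaces A hA) (hK.surfaces B hB))
  · exact C_of_rat hW hK (by omega) hdom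
      ((covered_curves hK h𝓕 X' S₁ S₂ f P hX' hd hc hm).C hW hP hK h𝓕)

theorem C_of_special (hW : W.Calculus) (hP : W.Products) (hK : Known W D) (h𝓕 : 𝓕.Theory D)
    (hW' : W'.Calculus) (hP' : W'.Products) (hK' : Known W' D') (h𝓕' : 𝓕'.Theory D')
    (T : Classification W 𝓕 W' 𝓕' Φ) {n : ℕ} (X : W.Var n) (hX : W.dim X ≤ 4)
    (h : T.Special X) : W.C X := by
  obtain ⟨X', Y, hdom, hX', ⟨f⟩, hY⟩ := h
  refine C_of_rat hW hK hX hdom ?_
  have hdim := h𝓕.dim_eq f
  rcases T.fibred X' Y ⟨f⟩ (by omega) hY with h1 | ⟨A, B, hA, hB, h1⟩ | ⟨Y', f', hY', hS⟩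
  · exact C_of_lowGenus hW hP hK h𝓕 T X' hX' h1
  · exact C_of_rat hW hK (by omega) h1 (C_prod hP (hK.surfaces A hA) (hK.surfaces B hB))
  · have hdim' := h𝓕'.dim_eq f'
    have h2 : Covered D' 𝓕' (Φ.var X') :=
      covered_slope hK' h𝓕' (Φ.var X') Y' f' (by omega) hS
    exact (H90.FT.transfer_C Φ hW hW' X').2 (h2.C hW' hP' hK' h𝓕')

/-- **All Künneth projectors of a threefold are algebraic, for the `ℓ`-adic and for the crystalline
cohomology, in the following cases: it is covered by curves of genus at most one; it has a fibration
over a curve in surfaces which are not of general type; the characteristic is greater than `5`, it is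
not of general type, and it is not of Kodaira dimension `0` with `H¹(X) = 0`.** -/
theorem C_of_classification (hW : W.Calculus) (hP : W.Products) (hK : Known W D)
    (h𝓕 : 𝓕.Theory D) (hW' : W'.Calculus) (hP' : W'.Products) (hK' : Known W' D')
    (h𝓕' : 𝓕'.Theory D') (T : Classification W 𝓕 W' 𝓕' Φ) {n : ℕ} (X : W.Var n)
    (hX : W.dim X = 3)
    (h : T.LowGenus X ∨ T.Special X ∨
      (T.MinimalModels ∧ T.kod X ≠ 3 ∧ (T.kod X = 0 → ∃ v, W.InH X 1 v ∧ v ≠ 0))) :
    (W.C X ∧ W.Cplus X) ∧ W'.C (Φ.var X) ∧ W'.Cplus (Φ.var X) := by
  have hC : W.C X := by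
    have h1 : T.LowGenus X ∨ T.Special X ∨ ∃ A, T.Abelian A ∧ RatDominates W A X := by
      rcases h with h | h | ⟨h, h3, h0⟩
      · exact Or.inl h
      · exact Or.inr (Or.inl h)
      · exact h X hX h3 h0
    rcases h1 with h1 | h1 | ⟨A, hA, h1⟩
    · exact C_of_lowGenus hW hP hK h𝓕 T X hX h1
    · exact C_of_special hW hP hK h𝓕 hW' hP' hK' h𝓕' T X (by omega) h1
    · exact C_of_rat hW hK (by omega) h1 (T.kleiman A hA)
  have hC' := (H90.FT.transfer_C Φ hW hW' X).1 hC
  exact ⟨⟨hC, cplus_of_C hW hC⟩, hC', cplus_of_C hW' hC'⟩

end theorems

end Pool.Agent.H16.FT
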